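import Pool.Agent.K7.H43.PW.Fin
import Pool.Agent.H350R3.MG.PLem

/-!
# General fat points of `ℙ^r`: `t ^ r` equal points, all degrees in space for `μ ≥ t / 6`

Two classes of tuples `(r, k, m 1, ..., m k, d)`, with arbitrary numbers of points and arbitrary
multiplicities, none of which is exceptional.

* They contain `t ^ r` general points of the same multiplicity `μ`, in each of the cases
  `Case r t μ d`. The cases after the first disjunct are new; they give, for `t ^ 3` points of
  `ℙ ^ 3`, **all** degrees if `(t - 2) (t - 3) ≤ 6 μ (t + 1)` (so if `6 μ ≥ t`), hence all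
  multiplicities and all degrees if `t ≤ 17`, and the degree `t (μ + 1) - 3` for all `t` and `μ`.
  In `ℙ ^ r`, with `c = d - t μ ≥ 0`, they give the degree `d` if
  `binom (c + r) r ≤ μ * ⌊(t ^ r + (r - 1) binom (c + r) r - binom (t + c + r) r) / (r - 1)⌋`.
* They are closed under collisions: in a tuple for which there are no forms, every point of
  multiplicity `μ` can be replaced by any points such that there are no forms of degree `μ - 1` with
  their multiplicities (these points are moved together); in a tuple which imposes independent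
  conditions, it can be replaced by any points which impose independent conditions in degree
  `μ - 1`.
-/

set_option autoImplicit false

namespace Pool.Agent.Results.MP_1dafdd_ag.PerfectPowersWindow

open MvPolynomial
open scoped LinearAlgebra.Projectivization
open Pool.Agent.H350R3.MG

/-- `V_d(Γ)`: the forms of degree `d` vanishing to order at least `m i` at the `i`-th point. -/
noncomputable def forms {r k : ℕ} (d : ℕ) (m : Fin k → ℕ) (P : Fin k → ℙ ℂ (Fin (r + 1) → ℂ)) :
    Submodule ℂ (MvPolynomial (Fin (r + 1)) ℂ) :=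
  homogeneousSubmodule (Fin (r + 1)) ℂ d ⊓
    Submodule.restrictScalars ℂ (⨅ i, primeIdeal (P i) ^ m i : Ideal (MvPolynomial (Fin (r + 1)) ℂ))

/-- `Γ` imposes maximal conditions in degree `d`. -/
def ImposesMaximalConditions {r k : ℕ} (d : ℕ) (m : Fin k → ℕ)
    (P : Fin k → ℙ ℂ (Fin (r + 1) → ℂ)) : Prop :=
  (Module.finrank ℂ (forms d m P) : ℤ) =
    max 0 (((d + r).choose r : ℤ) - ∑ i, ((m i + r - 1).choose r : ℤ))

/-- The cases for `t ^ r` points of multiplicity `μ` in degree `d`: the first disjunct is as in
`PerfectPowerCollisions`, the others are new. -/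
def Case (r t μ d : ℕ) : Prop :=
  ((r - 1) * t ^ r ≤ μ ∨ d < t * μ ∨ 2 * t * μ + (r - 1) * t ≤ 2 * d + r + 1 ∨
    (d + t + r - t * μ).choose r ≤ t ^ r ∨
    ((t = 2 ∧ (r ≤ 5 ∨ r = 7)) ∨ (t = 3 ∧ r ≤ 4) ∨ (t ≤ 5 ∧ r ≤ 3))) ∨
  μ = 1 ∨
  (∃ c, c < t ∧ d = t * μ + c ∧
    (c + r).choose r ≤
      μ * ((t ^ r + (r - 1) * (c + r).choose r - (t + c + r).choose r) / (r - 1))) ∨
  (r = 3 ∧ (d + 3 = t * (μ + 1) ∨ (t - 2) * (t - 3) ≤ 6 * μ * (t + 1))) ∨
  (r = 4 ∧ t = 5) ∨ (r = 5 ∧ t = 3)

/-- The smallest class of pairs consisting of a degree `d` and a multiset `M` of multiplicities of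
points of `ℙ^r` with the following properties:

* it contains `t ^ r` points of multiplicity `μ` in degree `d` in the cases `Case r t μ d`, provided
  that `binom (d + r) r ≤ t ^ r * binom (μ + r - 1) r`;
* it is closed under adding a point and under decreasing the degree;
* if it contains `{μ} + M` in degree `d` and `M'` in degree `μ - 1`, it contains `M' + M` in
  degree `d`. -/
inductive NoForms (r : ℕ) : ℕ → Multiset ℕ → Prop
  | powers (t μ d : ℕ) (ht : 1 ≤ t) (hc : Case r t μ d)
      (h : (d + r).choose r ≤ t ^ r * (μ + r - 1).choose r) :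
      NoForms r d (Multiset.replicate (t ^ r) μ)
  | point (d b : ℕ) (M : Multiset ℕ) (h : NoForms r d M) : NoForms r d (b ::ₘ M)
  | degree (d d' : ℕ) (M : Multiset ℕ) (hd : d' ≤ d) (h : NoForms r d M) : NoForms r d' M
  | collision (d μ : ℕ) (M M' : Multiset ℕ) (h : NoForms r d (μ ::ₘ M))
      (h' : NoForms r (μ - 1) M') : NoForms r d (M' + M)

/-- The smallest class of pairs consisting of a degree `d` and a multiset `M` of multiplicities of
points of `ℙ^r` with the following properties:

* it contains `t ^ r` points of multiplicity `μ` in degree `d` in the cases `Case r t μ d`, provided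
  that `t ^ r * binom (μ + r - 1) r ≤ binom (d + r) r`;
* it is closed under removing a point and under increasing the degree;
* if it contains `{μ} + M` in degree `d` and `M'` in degree `μ - 1`, where `μ ≥ 1`, it contains
  `M' + M` in degree `d`. -/
inductive Independent (r : ℕ) : ℕ → Multiset ℕ → Prop
  | powers (t μ d : ℕ) (ht : 1 ≤ t) (hc : Case r t μ d)
      (h : t ^ r * (μ + r - 1).choose r ≤ (d + r).choose r) :
      Independent r d (Multiset.replicate (t ^ r) μ)
  | remove (d b : ℕ) (M : Multiset ℕ) (h : Independent r d (b ::ₘ M)) : Independent r d M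
  | degree (d d' : ℕ) (M : Multiset ℕ) (hd : d ≤ d') (h : Independent r d M) : Independent r d' M
  | collision (d μ : ℕ) (M M' : Multiset ℕ) (hμ : 1 ≤ μ) (h : Independent r d (μ ::ₘ M))
      (h' : Independent r (μ - 1) M') : Independent r d (M' + M)

lemma forms_eq {r k d : ℕ} (m : Fin k → ℕ) (v : Fin k → Fin (r + 1) → ℂ) (hv : ∀ i, v i ≠ 0) :
    forms d m (fun i => Projectivization.mk ℂ (v i) (hv i)) =
      Pool.Agent.H938R2.forms (r + 1) d m v := by
  unfold forms
  ext F
  rw [Submodule.mem_inf, Submodule.restrictScalars_mem, Submodule.mem_iInf,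
    Pool.Agent.H938R2.mem_forms, mem_homogeneousSubmodule]
  have key : F.IsHomogeneous d → ∀ i,
      (F ∈ primeIdeal (Projectivization.mk ℂ (v i) (hv i)) ^ m i ↔
        Pool.Agent.H938R2.VanishesToOrder (m i) (v i) F) := by
    intro hF i
    rw [primeIdeal_mk]
    exact Pool.Agent.TH176.FB.mem_pow_iff_vanishes (hv i) ((mem_homogeneousSubmodule _ _).2 hF)
  constructor
  · rintro ⟨h1, h2⟩
    exact ⟨h1, fun i => (key h1 i).1 (h2 i)⟩
  · rintro ⟨h1, h2⟩
    exact ⟨h1, fun i => (key h1 i).2 (h2 i)⟩

lemma emp {n d : ℕ} {M : Multiset ℕ} (h : NoForms (n + 1) d M) :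
    Pool.Agent.Y55.Col.Emp (n + 1) (d + 1) M := by
  induction h with
  | powers t μ d ht hc h =>
    have h1 := Pool.Agent.Y55.Col.emp_of_general _
      (Pool.Agent.K7.H43.PW.uniform_zero' n t μ d ht hc h)
    rw [Multiset.map_const', Finset.card_val, Finset.card_univ, Fintype.card_fin] at h1
    exact h1
  | point d b M h ih => exact ih.point b
  | degree d d' M hd h ih => exact ih.mono (by omega)
  | collision d μ M M' h h' ih ih' => exact ih.collision (ih'.mono (by omega))

lemma ind {n d : ℕ} {M : Multiset ℕ} (h : Independent (n + 1) d M) :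
    Pool.Agent.Y55.Col.Ind n (d + 1) M := by
  induction h with
  | powers t μ d ht hc h => exact Pool.Agent.K7.H43.PW.ind_powers' n t μ d ht hc h
  | remove d b M h ih => exact ih.remove
  | degree d d' M hd h ih => exact ih.degree (by omega)
  | collision d μ M M' hμ h h' ih ih' =>
    rw [Nat.sub_add_cancel hμ] at ih'
    exact ih.collision ih'

/-- General points of `ℙ^r` with multiplicities `m i` impose maximal conditions in degree `d`, if
the degree and the multiplicities belong to the class `NoForms` or to the class `Independent`. -/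
theorem result (r k d : ℕ) (hr : 1 ≤ r) (m : Fin k → ℕ)
    (h : NoForms r d ((Finset.univ : Finset (Fin k)).val.map m) ∨
      Independent r d ((Finset.univ : Finset (Fin k)).val.map m)) :
    Generally (fun P : Fin k → ℙ ℂ (Fin (r + 1) → ℂ) => ImposesMaximalConditions d m P) := by
  obtain ⟨n, rfl⟩ : ∃ n, r = n + 1 := ⟨r - 1, by omega⟩
  rcases h with hT | hT
  · obtain ⟨D, hD, h⟩ := (Pool.Agent.Y55.Col.general_of_emp (emp hT)).and
      (Pool.Agent.H938R2.forGeneral_ne_zero (by omega))
    refine generally_of_poly D hD fun v hv hp => ?_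
    obtain ⟨h1, h2⟩ := h v hp
    have h3 := Pool.Agent.H938R2.finrank_forms_ge (n + 1) d m v h2
    unfold ImposesMaximalConditions
    rw [forms_eq _ v hv, h1, finrank_bot]
    rw [h1, finrank_bot, zero_add] at h3
    rw [max_eq_left]
    · simp
    · rw [sub_nonpos]
      exact_mod_cast h3
  · obtain ⟨D, hD, h⟩ := Pool.Agent.Y55.Col.general_of_ind (ind hT)
    refine generally_of_poly D hD fun v hv hp => ?_
    have h1 := h v hp
    have e2 : ∀ i, m i + (n + 1) - 1 = m i + n := fun i => by omega
    unfold ImposesMaximalConditions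
    rw [forms_eq _ v hv]
    simp only [e2]
    have h2 : (Module.finrank ℂ (Pool.Agent.H938R2.forms (n + 1 + 1) d m v) : ℤ) =
        ((d + (n + 1)).choose (n + 1) : ℤ) - ∑ i, ((m i + n).choose (n + 1) : ℤ) := by
      rw [eq_sub_iff_add_eq]
      exact_mod_cast h1
    rw [← h2, max_eq_right]
    exact Int.natCast_nonneg _

end Pool.Agent.Results.MP_1dafdd_ag.PerfectPowersWindow
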